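import Pool.Agent.H41.Ker3

set_option autoImplicit false

open Pool.Agent.H41.Ker

theorem Pool.Agent.Results.MP_ad4c49_an.Yes.result (𝕜 : Type) [RCLike 𝕜] :
    ∃ (X : Type) (_ : NormedAddCommGroup X) (_ : NormedSpace 𝕜 X), CompleteSpace X ∧
      Function.Surjective (NormedSpace.inclusionInDoubleDual 𝕜 X) ∧
      ¬ Positive 𝕜 X ∧ Positive 𝕜 (StrongDual 𝕜 X) :=
  ⟨X 𝕜, inferInstance, inferInstance, inferInstance, reflexive, negative, positive⟩
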